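import Pool.Agent.helper38.AT.All
import Pool.Agent.helper65.OM.EEB
import Pool.Agent.helper65.OM.ORT
import Pool.Agent.helper65.OM.PA1
import Pool.Agent.helper65.OM.PA2
import Pool.Agent.helper65.OM.GEO
import Pool.Agent.helper93.OM.SHF
import Pool.Agent.helper93.OM.SML
import Pool.Agent.helper27.OM.SMO
import Pool.Agent.helper9.OM.CNT
import Pool.Agent.helper42.OM.GRR
import Pool.Agent.helper45.OM.GAR
import Pool.Agent.helper79.OM.GSM
import Pool.Agent.helper52.OM.GCS
import Pool.Agent.helper68.OM.GUF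
import Pool.Agent.helper30.OM.GPH
import Pool.Agent.helper3.OM.GUB
import Pool.Agent.helper69.OM.GSD
import Pool.Agent.helper74.OM.GCU
import Pool.Agent.helper84.OM.GK4
import Pool.Agent.helper5.OM.GOP
import Pool.Agent.helper41.OM.GPG
import Pool.Agent.helper25.OM.GSY
import Pool.Agent.helper27.OM.GMA
import Pool.Agent.helper16.OM.GOA
import Pool.Agent.helper98.OM.GPP

/-!
# Project OM (MP_bf63dc_nt): assembly of part G (density one on progressions, arbitrary sets of slopes)
-/

set_option autoImplicit false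

namespace Pool.Agent.OM

open Pool.Agent.AT

theorem PA1_all : PA1_stmt := PA1 EEB (ORT EEB)

theorem PA2_all : PA2_stmt := PA2 PA1_all

theorem GEO_all : GEO_stmt := GEO EEB

theorem SMO_all : SMO_stmt := SMO EEB SHF

theorem GUB_all : GUB_stmt := GUB GEO_all GRR (GSM GEO_all GAR) (GCS SHF) (GUF EEB PA2_all SHF) SMO_all (GPH PA1_all)

theorem GCU_all : GCU_stmt := GCU GUB_all (GSD SHF SML GRR)

theorem GOP_all : GOP_stmt := GOP GCU_all CNT MM (GK4 PSY ADV) GRR

theorem OMG_all : OMG := GMA (GPG GOP_all) GSY QPc_all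

theorem OMA_all : OMA := GOA OMG_all

theorem OMPP_all : OMPP := GPP OMA_all

end Pool.Agent.OM
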