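import Pool.Agent.helper10.OM.AllG
import Pool.Agent.helper3.OM.HGX
import Pool.Agent.helper29.OM.HDV
import Pool.Agent.helper48.OM.HD4
import Pool.Agent.helper42.OM.HIN

/-!
# Project OM (MP_bf63dc_nt): assembly of part H
-/

set_option autoImplicit false

namespace Pool.Agent.OM

theorem HGX_all : HGX_stmt := HGX GSY

theorem OMDIV_all : OMDIV := HDV OMG_all

theorem OMD4_all : OMD4 := HD4 HGX_all OMG_all

theorem OMIND_all : OMIND := HIN HGX_all OMD4_all

end Pool.Agent.OM
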