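import Pool.Agent.helper10.QT.SpecX

/-!
# Project OM (MP_bf63dc_nt, rows `om:*`): density one on progressions

GOAL (`OMEGA`). For every `ε > 0` there is `L₀` such that for all `L ≥ L₀` and all coprime `a ≠ b` there is `q ≥ 1` such that for every `T` and all large
`Y` at least `(1/3 - ε)` of all pairs of points `(i, x), (j, y)`, `j < i < L`, `x, y < Y` have the property: with `m = i - j` at least
`(1 - ε) T` of the `T` numbers `c = b^m (1 + 6abx) - a^m (1 + 6aby) + q t`, `t < T`, are true: `b^m p - a^m p' = c` for infinitely many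
pairs of primes. COROLLARIES (`OMCOR`, `OMDEN`): `Good ε a b m`: there are `q, r` such that for every `T` some `T` consecutive terms of the progression
`r + q ℤ` contain at least `(1 - ε) T` true `c` for the coefficients `b^m, a^m`; such `m` form a set of positive lower density.

IDEA. Levels `i < L` with slope `a^i b^(L-i)`; `B m v = 1` if `c = b^m - a^m + 6abv` is not true; by `QPc` (Pool.Agent.helper38.AT) almost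
all quadruples of points have a pair with `B = 0`. `P = PP M T B` is the average of `B` over progressions of difference `M`. The cut norm of
`B - P` is `O(L^(-1/2))` (row CUT), since the frequencies `(α, β)` with `a^m α + b^m β` near to an integer for two different `m` are near
to rational numbers with denominator `MM1 a b L`. Then counting lemma and Moon-Moser.

RULES. Row `XX`: file `Pool/Agent/<seat>/OM/XX.lean`, `import Pool.Agent.helper10.OM.Spec`, `namespace Pool.Agent.OM`,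
`theorem XX (hYY : YY_stmt) ... : XX_stmt` (drop hypotheses you do not need), auxiliary lemmas prefixed `XX_`, other rows only as
hypotheses. No `convert`, no `congr!`, no `native_decide`, no straight double quotes; `open Classical in` only before definitions.
-/

set_option autoImplicit false

namespace Pool.Agent.OM

open Finset Real Pool.Agent.AT Pool.Agent.helper85.FC

/-! ## Definitions -/

/-- `exp (2 π i t)` -/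
noncomputable def ee (t : ℝ) : ℂ := Complex.exp (2 * π * t * Complex.I)

/-- `t` has distance at most `ρ` from an integer -/
def Near (t ρ : ℝ) : Prop := ∃ n : ℤ, |t - n| ≤ ρ

/-- the integers in `[-R, Y + R)` -/
noncomputable def XX (R Y : ℕ) : Finset ℤ := Ico (-(R : ℤ)) (Y + R)

/-- the Fourier transform of `f` restricted to `X` -/
noncomputable def ft (X : Finset ℤ) (f : ℤ → ℝ) (α : ℝ) : ℂ := ∑ x ∈ X, (f x : ℂ) * ee (α * x)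

/-- `|(1/D) ∑_(d < D) e(t d)|^2` -/
noncomputable def FD (D : ℕ) (t : ℝ) : ℝ := (‖∑ d ∈ range D, ee (t * d)‖ / D) ^ 2

/-- the energy of `φ_0, ..., φ_(L-1)` at the frequency `α` -/
noncomputable def Ph (L : ℕ) (X : Finset ℤ) (φ : ℕ → ℤ → ℝ) (α : ℝ) : ℝ := ∑ i ∈ range L, ‖ft X (φ i) α‖ ^ 2

/-- `a^L ∏_(1 ≤ k < L) |a^k - b^k|` -/
def MM1 (a b L : ℕ) : ℕ := a ^ L * ∏ k ∈ Ico 1 L, ((a : ℤ) ^ k - (b : ℤ) ^ k).natAbs

/-- the sum over the pairs of levels with difference `m` -/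
def gm (L : ℕ) (φ ψ : ℕ → ℤ → ℝ) (m : ℕ) (x y : ℤ) : ℝ := ∑ i ∈ Ico m L, φ i x * ψ (i - m) y

/-- all `φ_i` vanish outside `[-R, Y + R)` -/
def Sp (R Y : ℕ) (φ : ℕ → ℤ → ℝ) : Prop := ∀ i x, x ∉ XX R Y → φ i x = 0

/-- the average of `f` over the progression `x, x + M, ..., x + M (T - 1)` -/
noncomputable def sm (M T : ℕ) (f : ℤ → ℝ) (x : ℤ) : ℝ := (∑ τ ∈ range T, f (x + M * τ)) / T

/-- the averages of the `B_m` -/
noncomputable def PP (M T : ℕ) (B : ℕ → ℤ → ℝ) (m : ℕ) (v : ℤ) : ℝ := sm M T (B m) v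

/-- the symmetric kernel on the points `(i, x)` given by the functions `w_m`; zero on equal levels -/
noncomputable def kr (a b : ℕ) (w : ℕ → ℤ → ℝ) (p p' : ℕ × ℕ) : ℝ :=
  if p'.1 < p.1 then w (p.1 - p'.1) ((b : ℤ) ^ (p.1 - p'.1) * p.2 - (a : ℤ) ^ (p.1 - p'.1) * p'.2)
  else if p.1 < p'.1 then w (p'.1 - p.1) ((b : ℤ) ^ (p'.1 - p.1) * p'.2 - (a : ℤ) ^ (p'.1 - p.1) * p.2) else 0

/-- the weighted number of 4-cliques -/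
def K4 {α : Type} (V : Finset α) (U : α → α → ℝ) : ℝ :=
  ∑ x ∈ V, ∑ y ∈ V, ∑ z ∈ V, ∑ w ∈ V, U x y * U x z * U x w * U y z * U y w * U z w

/-- the points -/
def VV (L Y : ℕ) : Finset (ℕ × ℕ) := range L ×ˢ range Y

open Classical in
/-- `1` if `b^m - a^m + 6abv` is not true for `b^m, a^m`, otherwise `0` -/
noncomputable def BT (a b : ℕ) (m : ℕ) (v : ℤ) : ℝ :=
  if TrueCase (b ^ m) (a ^ m) ((b : ℤ) ^ m - (a : ℤ) ^ m + 6 * a * b * v) then 0 else 1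

open Classical in
/-- the number of the true numbers among `c, c + q, ..., c + q (T - 1)`, for the coefficients `b^m`, `a^m` -/
noncomputable def NT (a b m q T : ℕ) (c : ℤ) : ℕ := #{t ∈ range T | TrueCase (b ^ m) (a ^ m) (c + q * t)}

open Classical in
/-- THEOREM: density one on progressions, for a third of all pairs of points -/
def OMEGA : Prop := ∀ ε : ℝ, 0 < ε → ∃ L₀ : ℕ, 1 ≤ L₀ ∧ ∀ L : ℕ, L₀ ≤ L → ∀ a b : ℕ, 1 ≤ a → 1 ≤ b → Nat.Coprime a b → a ≠ b →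
  ∃ q : ℕ, 1 ≤ q ∧ ∀ T : ℕ, 1 ≤ T → ∃ Y₀ : ℕ, ∀ Y : ℕ, Y₀ ≤ Y →
    (1 / 6 - ε) * ((L : ℝ) * Y) ^ 2 ≤ #{t ∈ VV L Y ×ˢ VV L Y | t.2.1 < t.1.1 ∧ (1 - ε) * T ≤
      NT a b (t.1.1 - t.2.1) q T ((b : ℤ) ^ (t.1.1 - t.2.1) * (1 + 6 * a * b * t.1.2) -
        (a : ℤ) ^ (t.1.1 - t.2.1) * (1 + 6 * a * b * t.2.2))}

/-- the true `c` for the coefficients `b^m`, `a^m` have density `≥ 1 - ε` on arbitrarily long parts of one progression `r + q ℤ` -/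
def Good (ε : ℝ) (a b m : ℕ) : Prop := ∃ q r : ℕ, 1 ≤ q ∧ ∀ T : ℕ, 1 ≤ T → ∃ u : ℤ, (1 - ε) * T ≤ NT a b m q T (r + q * u)

/-- COROLLARY: among `r, 2r, ..., (L-1) r` there is a good exponent, with `L` depending only on `ε` -/
def OMCOR : Prop := ∀ ε : ℝ, 0 < ε → ∃ L : ℕ, ∀ a b : ℕ, 1 ≤ a → 1 ≤ b → Nat.Coprime a b → a ≠ b → ∀ r : ℕ, 1 ≤ r →
  ∃ m : ℕ, 1 ≤ m ∧ m < L ∧ Good ε a b (r * m)

open Classical in
/-- COROLLARY: a third of all exponents are good: of all pairs `j < i < L` at least `1/3 - ε` have a good difference, for all `L ≥ L₀(ε)` -/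
def OMTHI : Prop := ∀ ε : ℝ, 0 < ε → ∃ L₀ : ℕ, ∀ a b : ℕ, 1 ≤ a → 1 ≤ b → Nat.Coprime a b → a ≠ b → ∀ L : ℕ, L₀ ≤ L →
  (1 / 6 - ε) * (L : ℝ) ^ 2 ≤ #{p ∈ range L ×ˢ range L | p.2 < p.1 ∧ Good ε a b (p.1 - p.2)}

open Classical in
/-- COROLLARY: the good exponents have positive lower density, uniformly in `a, b` -/
def OMDEN : Prop := ∀ ε : ℝ, 0 < ε → ∃ (δ : ℝ) (N₀ : ℕ), 0 < δ ∧ ∀ a b : ℕ, 1 ≤ a → 1 ≤ b → Nat.Coprime a b → a ≠ b →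
  ∀ N : ℕ, N₀ ≤ N → δ * N ≤ #{m ∈ Icc 1 N | Good ε a b m}

/-! ## Part A: exponential sums -/

/-- **EEB** (short; pure Mathlib).  The last part: `‖1 - ee t‖ = 2 |sin (π t)|` and `sin x ≥ (2/π) x` for `0 ≤ x ≤ π/2`
(`Real.mul_le_sin`). The fourth: `2 |sin (π t)| ≤ 2 π |t|`. -/
def EEB_stmt : Prop := (∀ t, ‖ee t‖ = 1) ∧ (∀ s t, ee (s + t) = ee s * ee t) ∧ (∀ n : ℤ, ee n = 1) ∧
  (∀ t, ‖1 - ee t‖ ≤ 2 * π * |t|) ∧ ∀ t, |t| ≤ 1 / 2 → 4 * |t| ≤ ‖1 - ee t‖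

/-- **ORT** (short; from EEB).  If `Q ∣ z` all terms are `1`. Otherwise it is a geometric sum with ratio `ee (z/Q) ≠ 1` and
`ee (z/Q)^Q = ee z = 1` (`ee (z/Q) = 1` implies `z/Q ∈ ℤ`, `Complex.exp_eq_one_iff`). -/
def ORT_stmt : Prop := ∀ Q : ℕ, 1 ≤ Q → ∀ z : ℤ, ∑ k ∈ range Q, ee ((k : ℝ) / Q * z) = if (Q : ℤ) ∣ z then (Q : ℂ) else 0

/-- **PA1** (short-medium; from EEB, ORT; Parseval).  `‖S‖² = S conj S`, `conj (ee t) = ee (-t)`; the double sum over `x, x'` of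
`f x conj (f x') ∑_k ee (k (x - x')/Q)`, only the terms with `Q ∣ x - x'`, that is `x = x'`, remain. -/
def PA1_stmt : Prop := ∀ Q : ℕ, 1 ≤ Q → ∀ X : Finset ℤ, (∀ x ∈ X, ∀ x' ∈ X, (Q : ℤ) ∣ x - x' → x = x') → ∀ f : ℤ → ℂ,
  ∑ k ∈ range Q, ‖∑ x ∈ X, f x * ee ((k : ℝ) / Q * x)‖ ^ 2 = Q * ∑ x ∈ X, ‖f x‖ ^ 2

/-- **PA2** (short; from PA1).  For a fixed `k` apply PA1 in the variable `y` to `∑_x G x y ee (k x/Q)`, then for every `y` in the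
variable `x`. -/
def PA2_stmt : Prop := ∀ Q : ℕ, 1 ≤ Q → ∀ X : Finset ℤ, (∀ x ∈ X, ∀ x' ∈ X, (Q : ℤ) ∣ x - x' → x = x') → ∀ G : ℤ → ℤ → ℂ,
  ∑ k ∈ range Q, ∑ l ∈ range Q, ‖∑ x ∈ X, ∑ y ∈ X, G x y * (ee ((k : ℝ) / Q * x) * ee ((l : ℝ) / Q * y))‖ ^ 2 =
    (Q : ℝ) ^ 2 * ∑ x ∈ X, ∑ y ∈ X, ‖G x y‖ ^ 2

/-- **PHS** (short; from PA1).  `X = XX R Y` has at most `Q` consecutive integers; for every `i`, PA1 gives
`∑_k ‖ft X (φ i) (k/Q)‖² = Q ∑_x (φ i x)² ≤ Q Y`, since `φ i` is zero outside `[0, Y)`. -/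
def PHS_stmt : Prop := ∀ L R Y Q : ℕ, 1 ≤ Q → Y + 2 * R ≤ Q → ∀ φ : ℕ → ℤ → ℝ, (∀ i x, |φ i x| ≤ 1) → Sp 0 Y φ →
  ∑ k ∈ range Q, Ph L (XX R Y) φ ((k : ℝ) / Q) ≤ (Q : ℝ) * (L * Y)

/-- **GEO** (short-medium; from EEB).  `FD ≤ 1` by the triangle inequality (`D = 0`: `0 / 0 = 0`).  Last part: subtract the nearest integer
from `t` (this changes nothing, `ee (n d) = 1`), so `ρ < |t| ≤ 1/2`; the geometric sum has norm `≤ 2/‖1 - ee t‖ ≤ 2/(4 |t|) ≤ 1/(2ρ)`. -/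
def GEO_stmt : Prop := ∀ (D : ℕ) (t : ℝ), 0 ≤ FD D t ∧ FD D t ≤ 1 ∧
  ∀ ρ : ℝ, 0 < ρ → 1 ≤ D → ¬ Near t ρ → FD D t ≤ 1 / (2 * D * ρ) ^ 2

/-- **ARC** (short-medium; no other rows).  `|a^m₁ α + b^m₁ β - n₁| ≤ ρ`, `|a^m₂ α + b^m₂ β - n₂| ≤ ρ`, `κ = m₂ - m₁`. The second minus
`b^κ` times the first: `|a^m₁ (a^κ - b^κ) α - n| ≤ (1 + b^κ) ρ ≤ (1 + b^L) ρ` with `n = n₂ - b^κ n₁`. Multiply by the integer
`MM1 / (a^m₁ (a^κ - b^κ))` (up to its sign it is `a^(L - m₁)` times the product of the `|a^k - b^k|` for `k ≠ κ`), which is at most `MM1` in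
absolute value. If `MM1 = 0` the claim is trivial (`n = 0`). -/
def ARC_stmt : Prop := ∀ a b L : ℕ, 1 ≤ a → 1 ≤ b → ∀ (α β ρ : ℝ) (m₁ m₂ : ℕ), 1 ≤ m₁ → m₁ < m₂ → m₂ < L → 0 ≤ ρ →
  Near ((a : ℝ) ^ m₁ * α + (b : ℝ) ^ m₁ * β) ρ → Near ((a : ℝ) ^ m₂ * α + (b : ℝ) ^ m₂ * β) ρ →
  Near (MM1 a b L * α) (MM1 a b L * (1 + (b : ℝ) ^ L) * ρ)

/-- **SMF** (short-medium; from GEO, ARC).  By ARC at most one `m ∈ [1, L)` has `Near (a^m α + b^m β) ρ`; it contributes at most `1`, and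
every other `m` at most `1/(2Dρ)² ≤ 1/L`. -/
def SMF_stmt : Prop := ∀ (a b L D : ℕ) (ρ : ℝ), 1 ≤ a → 1 ≤ b → 1 ≤ L → 1 ≤ D → 0 < ρ → (L : ℝ) ≤ (2 * D * ρ) ^ 2 → ∀ α β : ℝ,
  ¬ Near (MM1 a b L * α) (MM1 a b L * (1 + (b : ℝ) ^ L) * ρ) →
  ∑ m ∈ Ico 1 L, FD D ((a : ℝ) ^ m * α + (b : ℝ) ^ m * β) ≤ 2

/-! ## Part B: the cut norm -/

/-- **SHF** (short; pure).  `∑_(x ∈ [-R, Y+R)) h (x + A) = ∑_(x ∈ [-R+A, Y+R+A)) h x`, and both intervals contain the support `[-R₀, Y+R₀)`.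
(`Finset.sum_image` or `Finset.sum_bij_ne_zero`.) -/
def SHF_stmt : Prop := ∀ {E : Type} [AddCommMonoid E] (R₀ R Y : ℕ) (A : ℤ), R₀ + |A| ≤ R → ∀ h : ℤ → E,
  (∀ x, x ∉ XX R₀ Y → h x = 0) → ∑ x ∈ XX R Y, h (x + A) = ∑ x ∈ XX R Y, h x

/-- **CSQ** (medium; from SHF).  `h (x, y) = K m (b^m x - a^m y) gm m x y` is supported in `XX R₀ Y` in both variables, and
`h (x + a^m d, y + b^m d) = K m (b^m x - a^m y) gm m (x + a^m d) (y + b^m d)`. SHF twice: for every `d < D` the inner double sum of the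
left side is `∑_x ∑_y K m (b^m x - a^m y) gm m (x + a^m d) (y + b^m d)`. Take the average over `d < D`; Cauchy-Schwarz over the at most
`L (Y + 2R)²` triples `(m, x, y)`, with `|K| ≤ 1`. -/
def CSQ_stmt : Prop := ∀ a b L D R₀ R Y : ℕ, 1 ≤ D → (∀ m < L, R₀ + a ^ m * D ≤ R ∧ R₀ + b ^ m * D ≤ R) →
  ∀ K : ℕ → ℤ → ℝ, (∀ m v, |K m v| ≤ 1) → ∀ φ ψ : ℕ → ℤ → ℝ, Sp R₀ Y φ → Sp R₀ Y ψ →
  (∑ m ∈ Ico 1 L, ∑ x ∈ XX R Y, ∑ y ∈ XX R Y, K m ((b : ℤ) ^ m * x - (a : ℤ) ^ m * y) * gm L φ ψ m x y) ^ 2 ≤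
    L * ((Y : ℝ) + 2 * R) ^ 2 * ∑ m ∈ Ico 1 L, ∑ x ∈ XX R Y, ∑ y ∈ XX R Y,
      ((∑ d ∈ range D, gm L φ ψ m (x + (a : ℤ) ^ m * d) (y + (b : ℤ) ^ m * d)) / D) ^ 2

/-- **UFT** (medium; from EEB, PA2, SHF).  `A = a^m`, `B = b^m`, `G x y = (1/D) ∑_d g (x + A d) (y + B d)`, `g = gm m`. By PA2 the left side is
`∑_(k, l) ‖Ĝ(k, l)‖²`, `Ĝ(k, l) = ∑_(x, y) G x y ee (αx) ee (βy)`, `α = k/Q`, `β = l/Q`. By SHF (twice) `∑_(x, y) g (x + A d) (y + B d) ee (αx) ee (βy)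
= ee (-(A α + B β) d) ĝ`, `ĝ = ∑_(i ∈ [m, L)) ft (φ i) α ft (ψ (i - m)) β`. So `‖Ĝ‖² = FD D (A α + B β) ‖ĝ‖²` (complex conjugation:
`‖∑_d ee (-t d)‖ = ‖∑_d ee (t d)‖`) and `‖ĝ‖² ≤ Ph φ α Ph ψ β` by Cauchy-Schwarz (the indices `i - m` are different and `< L`). -/
def UFT_stmt : Prop := ∀ a b L D R₀ R Y Q m : ℕ, 1 ≤ D → 1 ≤ Q → Y + 2 * R ≤ Q → R₀ + a ^ m * D ≤ R → R₀ + b ^ m * D ≤ R →
  ∀ φ ψ : ℕ → ℤ → ℝ, Sp R₀ Y φ → Sp R₀ Y ψ →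
  (Q : ℝ) ^ 2 * ∑ x ∈ XX R Y, ∑ y ∈ XX R Y,
      ((∑ d ∈ range D, gm L φ ψ m (x + (a : ℤ) ^ m * d) (y + (b : ℤ) ^ m * d)) / D) ^ 2 ≤
    ∑ k ∈ range Q, ∑ l ∈ range Q, Ph L (XX R Y) φ ((k : ℝ) / Q) * Ph L (XX R Y) ψ ((l : ℝ) / Q) *
      FD D ((a : ℝ) ^ m * ((k : ℝ) / Q) + (b : ℝ) ^ m * ((l : ℝ) / Q))

/-- **SMO** (short-medium; from EEB, SHF).  `ft (sm M T f) α = (1/T) ∑_τ ee (-α M τ) ft f α` (SHF with `R₀ = 0`, `A = M τ ≤ R`), so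
`ft (f - sm M T f) α = (1/T) ∑_τ (1 - ee (-α M τ)) ft f α`. The factor has norm at most `2`, and if `|M α - n| ≤ ρ` then
`ee (-α M τ) = ee (-τ (M α - n))`, so `‖1 - ee (-α M τ)‖ ≤ 2 π τ ρ ≤ 2 π T ρ`. -/
def SMO_stmt : Prop := ∀ M T R Y : ℕ, 1 ≤ T → M * T ≤ R → ∀ f : ℤ → ℝ, (∀ x, x ∉ XX 0 Y → f x = 0) → ∀ α : ℝ,
  ‖ft (XX R Y) (fun x => f x - sm M T f x) α‖ ^ 2 ≤ 4 * ‖ft (XX R Y) f α‖ ^ 2 ∧
  ∀ ρ : ℝ, 0 ≤ ρ → Near (M * α) ρ →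
    ‖ft (XX R Y) (fun x => f x - sm M T f x) α‖ ^ 2 ≤ (2 * π * T * ρ) ^ 2 * ‖ft (XX R Y) f α‖ ^ 2

/-- **UBD** (medium; from GEO, SMF, CSQ, UFT, SMO, PHS).  `M = MM1 a b L`, `φᵘ i x = φ i x - sm M T (φ i) x`, `ρ = 1/(2π T (M+1) (1 + b^L) L)`,
`ρ' = M (1 + b^L) ρ`, so `(2π T ρ')² L ≤ 1`; `D ≥ 1` with `2 D ρ ≥ L`; `R₀ = M T`, `R = 3 M T + (a^L + b^L) D`, `Y₀ = 2R`, `Q = Y + 2R + 1`. `φᵘ`
and `ψ` satisfy `Sp R₀ Y`. CSQ and UFT: `S² ≤ L (Y + 2R)² Q⁻² ∑_(k, l) Ph φᵘ (k/Q) Ph ψ (l/Q) ∑_m FD D (a^m k/Q + b^m l/Q)`. For all `α, β`: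
`Ph φᵘ α ∑_m FD D (a^m α + b^m β) ≤ 8 Ph φ α`: if not `Near (M α) ρ'` then the sum is `≤ 2` (SMF) and `Ph φᵘ α ≤ 4 Ph φ α` (SMO); otherwise
the sum is `≤ L` (GEO) and `Ph φᵘ α ≤ (2π T ρ')² Ph φ α` (SMO). PHS for `φ` and `ψ`: `S² ≤ 8 L (Y + 2R)² (L Y)² ≤ 32 L³ Y⁴`. -/
def UBD_stmt : Prop := ∀ a b L T : ℕ, 1 ≤ a → 1 ≤ b → 1 ≤ L → 1 ≤ T → ∃ R Y₀ : ℕ, 3 * (MM1 a b L * T) ≤ R ∧ ∀ Y : ℕ, Y₀ ≤ Y →
  ∀ (K φ ψ : ℕ → ℤ → ℝ), (∀ m v, |K m v| ≤ 1) → (∀ i x, |φ i x| ≤ 1) → (∀ i x, |ψ i x| ≤ 1) → Sp 0 Y φ → Sp 0 Y ψ →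
  |∑ m ∈ Ico 1 L, ∑ x ∈ XX R Y, ∑ y ∈ XX R Y, K m ((b : ℤ) ^ m * x - (a : ℤ) ^ m * y) *
    gm L (fun i x => φ i x - sm (MM1 a b L) T (φ i) x) ψ m x y| ≤ 6 * (L * √L) * (Y : ℝ) ^ 2

/-- **SML** (short; pure).  `sm M T f x - sm M T f (x - M s) = (1/T) (∑_(T-s ≤ τ < T) f (x + M τ) - ∑_(-s ≤ τ < 0) f (x + M τ))` (for `s ≤ T`), at most
`2 s` values of `f`, and `∑_x |f (x + A)| ≤ Y` for every `A`. -/
def SML_stmt : Prop := ∀ M T s R Y : ℕ, 1 ≤ T → s ≤ T → ∀ f : ℤ → ℝ, (∀ x, |f x| ≤ 1) → (∀ x, x ∉ XX 0 Y → f x = 0) →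
  ∑ x ∈ XX R Y, |sm M T f x - sm M T f (x - M * s)| ≤ 2 * s * Y / T

/-- **SMD** (medium; from SHF, SML).  `M₁ = MM1 a b L`, `M = b^L M₁`, `T' = L b^L T`, `φˢ i = sm M₁ T' (φ i)`. For fixed `m, i, y` and `t < T`, with
`s = b^(L-m) t ≤ b^L T`, `M t = b^m M₁ s`: `∑_x B m (b^m x - a^m y + M t) φˢ x = ∑_x B m (b^m x - a^m y) φˢ (x - M₁ s)` (SHF for
`h x = B m (b^m x - a^m y) φˢ (x - M₁ s)`, `A = M₁ s`, `R₀ = M₁ T' + M₁ s`, `R₀ + A ≤ 3 M₁ T' ≤ R`). So the sum over `x` of `(B m - PP ...) φˢ` is at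
most the average over `t < T` of `∑_x |φˢ x - φˢ (x - M₁ s)| ≤ 2 s Y/T' ≤ 2 Y/L` (SML). Sum over `y ∈ [0, Y)` (`|ψ| ≤ 1`) and over the at
most `L²/2` pairs `(m, i)`. -/
def SMD_stmt : Prop := ∀ a b L T R Y : ℕ, 1 ≤ a → 1 ≤ b → 1 ≤ L → 1 ≤ T → 3 * (MM1 a b L * (L * b ^ L * T)) ≤ R →
  ∀ (B φ ψ : ℕ → ℤ → ℝ), (∀ m v, 0 ≤ B m v ∧ B m v ≤ 1) → (∀ i x, |φ i x| ≤ 1) → (∀ i x, |ψ i x| ≤ 1) → Sp 0 Y φ → Sp 0 Y ψ →
  |∑ m ∈ Ico 1 L, ∑ x ∈ XX R Y, ∑ y ∈ XX R Y, (B m ((b : ℤ) ^ m * x - (a : ℤ) ^ m * y) -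
      PP (b ^ L * MM1 a b L) T B m ((b : ℤ) ^ m * x - (a : ℤ) ^ m * y)) *
    gm L (fun i x => sm (MM1 a b L) (L * b ^ L * T) (φ i) x) ψ m x y| ≤ L * (Y : ℝ) ^ 2

/-- **CUT** (medium; from UBD, SMD).  By the symmetry of `kr` (exchange `p` and `p'`) it is enough to show the bound `7 L √L Y²` for the sum over
the pairs with `p'.1 < p.1`. With `φ' i x = φ (i, x)` for `i < L`, `0 ≤ x < Y`, otherwise `0`, and `ψ'` in the same way, this sum is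
`∑_m ∑_(x, y ∈ XX R Y) (B - PP) gm φ' ψ'` (`m = p.1 - p'.1`, `i = p.1`), for every `R`. Write `φ' = φˢ + φᵘ` (`T' = L b^L T`, `R` and `Y₀` of UBD
for `T'`): SMD for `φˢ` (`≤ L Y² ≤ L √L Y²`), UBD for `φᵘ` with `K = B - PP` (`|K| ≤ 1` as both are in `[0, 1]`). -/
def CUT_stmt : Prop := ∀ a b L T : ℕ, 1 ≤ a → 1 ≤ b → 1 ≤ L → 1 ≤ T → ∃ Y₀ : ℕ, ∀ Y : ℕ, Y₀ ≤ Y → ∀ B : ℕ → ℤ → ℝ,
  (∀ m v, 0 ≤ B m v ∧ B m v ≤ 1) → ∀ φ ψ : ℕ × ℕ → ℝ, (∀ p, |φ p| ≤ 1) → (∀ p, |ψ p| ≤ 1) →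
  |∑ p ∈ VV L Y, ∑ p' ∈ VV L Y, (kr a b B p p' - kr a b (PP (b ^ L * MM1 a b L) T B) p p') * φ p * ψ p'| ≤
    14 * (L * √L) * (Y : ℝ) ^ 2

/-! ## Part C: the end of the proof -/

/-- **CNT** (medium; pure Mathlib; counting lemma).  Exchange the six factors one after the other: for example for the factor `x, y` and fixed
`z, w` the difference is `∑_(x, y) (U x y - W x y) φ x ψ y` times a constant in `[0, 1]`, `φ x` the product of the factors which depend on `x`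
(and not on `y`), `ψ y` the same for `y`; all in `[0, 1]`. So every step costs at most `E n²`. -/
def CNT_stmt : Prop := ∀ {α : Type} (V : Finset α) (U W : α → α → ℝ) (E : ℝ), (∀ x y, 0 ≤ U x y ∧ U x y ≤ 1) →
  (∀ x y, 0 ≤ W x y ∧ W x y ≤ 1) →
  (∀ φ ψ : α → ℝ, (∀ x, |φ x| ≤ 1) → (∀ x, |ψ x| ≤ 1) → |∑ x ∈ V, ∑ y ∈ V, (U x y - W x y) * φ x * ψ y| ≤ E) →
  K4 V W ≤ K4 V U + 6 * E * (#V : ℝ) ^ 2

/-- **K4B** (medium; from PSY, ADV of SpecX).  Forms `f(i, x) = (a^i b^(L-i), 1 + 6abx)`, injective on `VV L Y` because `a ≠ b`; primitive, constant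
term prime to 6. For `p = (i, x)`, `p' = (j, y)`, `j < i`, `m = i - j`: `gcd (a^i b^(L-i)) (a^j b^(L-j)) = a^j b^(L-i)` and `Pair (f p) (f p')` is
`TrueCase (b^m) (a^m) (b^m (1 + 6abx) - a^m (1 + 6aby))`, so `kr a b (BT a b) p p' = 1` iff the levels are different and `¬ Pair (f p) (f p')`
(PSY for the other order), otherwise it is `0`. `K4` is the number of the quadruples with all six values `1`; the map to quadruples of forms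
is injective; apply `QPc` with `F i` the image of `VV L Y` for all `i : Fin 4`, size `L Y`; all quadruples are admissible by ADV. -/
def K4B_stmt : Prop := QPc → ∃ C δ : ℝ, 0 < C ∧ 0 < δ ∧ ∀ a b L Y : ℕ, 1 ≤ a → 1 ≤ b → Nat.Coprime a b → a ≠ b → 1 ≤ L → 1 ≤ Y →
  K4 (VV L Y) (kr a b (BT a b)) ≤ C * ((L : ℝ) * Y) ^ 4 * ((L : ℝ) * Y) ^ (-δ)

/-- **OMP** (medium; from CUT, CNT, MM, K4B; `MM_stmt` of SpecX).  `ε ≤ 1` without loss. `n = L Y`. By CNT (with `U = kr BT`, `W = kr P`, `P = PP M T BT`,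
`M = b^L MM1`, `E = 14 L √L Y²`, CUT) `K4 (kr P) ≤ C n^(4-δ) + 84 n⁴/√L`. The graph `R p p' := ε ≤ kr P p p'` is symmetric and irreflexive
(`kr` is `0` on the diagonal); its number of 4-cliques is `≤ ε⁻⁶ K4 (kr P)`, so by MM the number of ordered pairs with `ε ≤ kr P` is
at most `(2/3 + (3/2) ε⁻⁶ (C n^(-δ) + 84/√L)) n²`. Choose `L₀` with `1/L + (3/2) ε⁻⁶ 84/√L ≤ ε` for `L ≥ L₀`, and `Y₀` such that
`(3/2) ε⁻⁶ C n^(-δ) ≤ ε`. The pairs on equal levels are `n²/L`. So at least `(1/3 - 2ε) n²` ordered pairs have different levels and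
`kr P < ε`, and half of them `p'.1 < p.1`. -/
def OMP_stmt : Prop := QPc → ∀ ε : ℝ, 0 < ε → ∃ L₀ : ℕ, 1 ≤ L₀ ∧ ∀ L : ℕ, L₀ ≤ L → ∀ a b : ℕ, 1 ≤ a → 1 ≤ b → Nat.Coprime a b → a ≠ b →
  ∀ T : ℕ, 1 ≤ T → ∃ Y₀ : ℕ, ∀ Y : ℕ, Y₀ ≤ Y → (1 / 6 - ε) * ((L : ℝ) * Y) ^ 2 ≤
    #{t ∈ VV L Y ×ˢ VV L Y | t.2.1 < t.1.1 ∧ kr a b (PP (b ^ L * MM1 a b L) T (BT a b)) t.1 t.2 < ε}

/-- **OMF** (short-medium; from OMP).  `q = 6ab b^L MM1 a b L ≥ 1` (as `a ≠ b`, `a^k ≠ b^k` for `k ≥ 1`). For `p = (i, x)`, `p' = (j, y)`, `j < i`, `m = i - j`,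
`v = b^m x - a^m y`: `kr P p p' = (1/T) ∑_(t < T) BT m (v + M t)`, and `b^m - a^m + 6ab (v + M t) = b^m (1 + 6abx) - a^m (1 + 6aby) + q t`. So
`T kr P = T - NT ...`, and `kr P < ε` implies `NT > (1 - ε) T`. -/
def OMF_stmt : Prop := QPc → OMEGA

/-- **OMC** (short-medium; from OMEGA).  `ε ≤ 1/10` without loss. First `r = 1`: use OMEGA for `ε/4` and `L = L₀`; it gives `L` and (for `a, b`) `q`. For every `T`
it gives (for large `Y ≥ 1`, since `1/6 - ε/4 > 0`) levels `j < i < L` and `c` with at least `(1 - ε/4) T` true numbers among `c + q t`, `t < T`;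
there are finitely many pairs `(m, c mod q)`, `m = i - j < L`, so one pair `(m, r)` occurs for infinitely many `T`. Given `T`, take such
`T₁ ≥ 4 T/ε`, cut `[0, T₁)` in `⌊T₁/T⌋` blocks of length `T` and a rest of less than `T ≤ ε T₁/4`; if every block had fewer than `(1 - ε) T` true
numbers, there would be fewer than `(1 - ε) T₁ + ε T₁/4 < (1 - ε/4) T₁` in total. So some block has at least `(1 - ε) T`. For general
`r` apply this to `(a^r, b^r)`: `(b^r)^m = b^(r m)`, so `Good ε (a^r) (b^r) m` is `Good ε a b (r m)`. -/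
def OMC_stmt : Prop := OMEGA → OMCOR

/-- **OMD** (short; from OMCOR).  For every `r ≤ N/L` (`r ≥ 1`) there is a good `r m ≤ N` with `1 ≤ m < L`; every number is `r m` for at most `L` pairs, so
there are at least `⌊N/L⌋/L ≥ N/(2 L²)` good exponents `≤ N` if `N ≥ L` (`⌊x⌋ ≥ x/2` for `x ≥ 1`); `δ = 1/(2 L²)`, `N₀ = L`. (`L ≥ 2`.) -/
def OMD_stmt : Prop := OMCOR → OMDEN

/-- **OMT** (short-medium; from OMEGA; the proof is that of OMC, `r = 1`).  `ε ≤ 1/10` without loss; OMEGA for `ε/4`; fix `a, b, L`. For every `T` let `S_T`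
be the set of the pairs `(i, j)`, `j < i < L`, which occur in OMEGA for `T` (with `Y` the maximum of `Y₀(T)` and `1`) with some `x, y`: `#S_T Y² ≥ (1/6 - ε/4) (L Y)²`. Some
set `S` is `S_T` for infinitely many `T`; for `(i, j) ∈ S` the number `m = i - j` is good (the class `r` of `c` mod `q`: pigeonhole for every `m`). -/
def OMT_stmt : Prop := OMEGA → OMTHI

end Pool.Agent.OM
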