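import Pool.Agent.helper10.OM.Spec

/-!
# Project OM, part G (MP_bf63dc_nt, rows `om:G*`): density one on progressions for arbitrary sets of slopes

GOAL (`OMG`). `GoodR ε a b`: there are `q ≥ 1`, `r` such that for every `T` some `T` consecutive terms of the progression `r + q ℤ` contain at
least `(1 - ε) T` integers `c` with `a p - b p' = c` for infinitely many pairs of primes (and `(a, b, c)` as in Q1). For every `ε > 0` there is `η > 0`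
such that every finite set `F` of positive integers with `#(F/F) ≤ η (#F)²` has at least `(1/3 - ε) (#F)²` pairs `(s, s')` whose quotient `s/s'`, in
lowest terms, is good. CONSEQUENCES. `OMA`: `F = {s a^i b^(L-i)}`, `s ∈ A`, any finite set `A` of integers prime to `ab`. `OMPP`: for every `ε` a positive
proportion of all pairs of integers is good.

IDEA. The proof of `OMEGA` (Spec.lean) with the slopes `s ∈ F`, forms `(s, 1 + 6 M₁ x)`, `M₁ = (H²)!`, `H ≥ max F`; the kernels are indexed by the ratio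
classes `r ∈ RR F`; two different ratio classes `(a₁, b₁)`, `(a₂, b₂)` are resonant at the same frequency `(α, β)` only if `M₁ α` is near to an
integer, as `a₁ b₂ - a₂ b₁ ≠ 0` divides `M₁`. Every row is a variant of a landed row of Spec.lean; copy it (the file is named).

RULES. Row `XX`: file `Pool/Agent/<seat>/OM/XX.lean`, `import Pool.Agent.helper10.OM.SpecG`, `namespace Pool.Agent.OM`,
`theorem XX (hYY : YY_stmt) ... : XX_stmt` (drop hypotheses you do not need), auxiliary lemmas prefixed `XX_`, other rows only as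
hypotheses. No `convert`, no `congr!`, no `native_decide`, no straight double quotes; `open Classical in` only before definitions.
-/

set_option autoImplicit false

namespace Pool.Agent.OM

open Finset Real Pool.Agent.AT Pool.Agent.helper85.FC

/-! ## Definitions -/

/-- `s/s'` in lowest terms -/
def rp (s s' : ℕ) : ℕ × ℕ := (s / Nat.gcd s s', s' / Nat.gcd s s')

/-- the pairs `s' < s` of elements of `F` -/
def FF (F : Finset ℕ) : Finset (ℕ × ℕ) := (F ×ˢ F).filter (fun p => p.2 < p.1)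

/-- the ratio classes of the pairs `s' < s` -/
def RR (F : Finset ℕ) : Finset (ℕ × ℕ) := (FF F).image (fun p => rp p.1 p.2)

/-- the sum over the pairs of `FF F` with ratio class `r` -/
def gr (F : Finset ℕ) (φ ψ : ℕ → ℤ → ℝ) (r : ℕ × ℕ) (x y : ℤ) : ℝ := ∑ p ∈ (FF F).filter (fun p => rp p.1 p.2 = r), φ p.1 x * ψ p.2 y

/-- the energy at the frequency `α` -/
noncomputable def PF (F : Finset ℕ) (X : Finset ℤ) (φ : ℕ → ℤ → ℝ) (α : ℝ) : ℝ := ∑ s ∈ F, ‖ft X (φ s) α‖ ^ 2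

/-- the points -/
def VF (F : Finset ℕ) (Y : ℕ) : Finset (ℕ × ℕ) := F ×ˢ range Y

/-- the symmetric kernel on the points `(s, x)` given by the functions `w r`; zero for equal slopes -/
noncomputable def kg (w : ℕ × ℕ → ℤ → ℝ) (p p' : ℕ × ℕ) : ℝ :=
  if p'.1 < p.1 then w (rp p.1 p'.1) (((rp p.1 p'.1).2 : ℤ) * p.2 - ((rp p.1 p'.1).1 : ℤ) * p'.2)
  else if p.1 < p'.1 then w (rp p'.1 p.1) (((rp p'.1 p.1).2 : ℤ) * p'.2 - ((rp p'.1 p.1).1 : ℤ) * p.2) else 0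

/-- the modulus `(H²)!` -/
def MH (H : ℕ) : ℕ := Nat.factorial (H ^ 2)

/-- the averages over progressions of difference `M` -/
noncomputable def PG (M T : ℕ) (B : ℕ × ℕ → ℤ → ℝ) (r : ℕ × ℕ) (v : ℤ) : ℝ := sm M T (B r) v

open Classical in
/-- `1` if `c = b - a + 6 M₁ v` is not true for `(b, a)`, `r = (a, b)`, `M₁ = MH H`; otherwise `0` -/
noncomputable def BG (H : ℕ) (r : ℕ × ℕ) (v : ℤ) : ℝ :=
  if TrueCase r.2 r.1 ((r.2 : ℤ) - r.1 + 6 * (MH H : ℤ) * v) then 0 else 1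

/-- the quotients of elements of `F` -/
def QF (F : Finset ℕ) : Finset ℚ := (F ×ˢ F).image (fun p => (p.1 : ℚ) / p.2)

open Classical in
/-- the number of the true numbers among `c, c + q, ..., c + q (T - 1)`, for `(a, b)` -/
noncomputable def NR (a b q T : ℕ) (c : ℤ) : ℕ := #{t ∈ range T | TrueCase a b (c + q * ((t : ℕ) : ℤ))}

/-- the true `c` for `(a, b)` have density `≥ 1 - ε` on arbitrarily long parts of one progression `r + q ℤ` -/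
def GoodR (ε : ℝ) (a b : ℕ) : Prop := ∃ q r : ℕ, 1 ≤ q ∧ ∀ T : ℕ, 1 ≤ T → ∃ u : ℤ, (1 - ε) * T ≤ NR a b q T (r + q * u)

/-- `s/s'` in lowest terms is good -/
def GQ (ε : ℝ) (s s' : ℕ) : Prop := GoodR ε (s / Nat.gcd s s') (s' / Nat.gcd s s')

open Classical in
/-- THEOREM: every finite set of positive integers with a small set of quotients has at least a third of its quotients good -/
def OMG : Prop := ∀ ε : ℝ, 0 < ε → ∃ η : ℝ, 0 < η ∧ ∀ F : Finset ℕ, (∀ s ∈ F, 0 < s) → (#(QF F) : ℝ) ≤ η * (#F : ℝ) ^ 2 →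
  (1 / 3 - ε) * (#F : ℝ) ^ 2 ≤ #{p ∈ F ×ˢ F | GQ ε p.1 p.2}

open Classical in
/-- COROLLARY: for every finite set `A` of positive integers prime to `ab`: for a third of all pairs `(s, s') ∈ A²` one of the numbers
`(a/b)^m s/s'`, `|m| < L`, is good; `L` depends only on `ε` -/
def OMA : Prop := ∀ ε : ℝ, 0 < ε → ∃ L : ℕ, ∀ a b : ℕ, 1 ≤ a → 1 ≤ b → Nat.Coprime a b → a ≠ b → ∀ A : Finset ℕ,
  (∀ s ∈ A, 0 < s ∧ Nat.Coprime s (a * b)) → (1 / 3 - ε) * (#A : ℝ) ^ 2 ≤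
    #{p ∈ A ×ˢ A | ∃ m < L, GQ ε (a ^ m * p.1) (b ^ m * p.2) ∨ GQ ε (b ^ m * p.1) (a ^ m * p.2)}

open Classical in
/-- COROLLARY: a positive proportion of all pairs is good -/
def OMPP : Prop := ∀ ε : ℝ, 0 < ε → ∃ (δ : ℝ) (N₀ : ℕ), 0 < δ ∧ ∀ N : ℕ, N₀ ≤ N →
  δ * (N : ℝ) ^ 2 ≤ #{p ∈ Icc 1 N ×ˢ Icc 1 N | Nat.Coprime p.1 p.2 ∧ GoodR ε p.1 p.2}

/-! ## Rows -/

/-- **GRR** (short; pure).  (1) For `p ∈ FF F`, `rp p.1 p.2 = (a, b)` has `a = s/d`, `b = s'/d ≤ H`, `a, b ≥ 1`, coprime. (2) Two different elements of `RR F` are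
coprime pairs, so `a₁ b₂ = a₂ b₁` would imply `a₁ = a₂`, `b₁ = b₂`. (3) In a class `r` the element `s` determines `s' = s b/a` and conversely.
(4) `(a, b) ↦ a/b` is injective on `RR F` (coprime pairs) with values in `QF F` (`a/b = s/s'`), and for `s₀ ∈ F` the map `s ↦ s/s₀` from `F` to `QF F` is
injective. -/
def GRR_stmt : Prop := ∀ (F : Finset ℕ) (H : ℕ), (∀ s ∈ F, 1 ≤ s ∧ s ≤ H) →
  (∀ r ∈ RR F, 1 ≤ r.1 ∧ r.1 ≤ H ∧ 1 ≤ r.2 ∧ r.2 ≤ H ∧ Nat.Coprime r.1 r.2) ∧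
  (∀ r ∈ RR F, ∀ r' ∈ RR F, r ≠ r' → r.1 * r'.2 ≠ r'.1 * r.2) ∧
  (∀ p ∈ FF F, ∀ p' ∈ FF F, rp p.1 p.2 = rp p'.1 p'.2 → (p.1 = p'.1 ∨ p.2 = p'.2) → p = p') ∧
  #(RR F) ≤ #(QF F) ∧ #F ≤ #(QF F)

/-- **GAR** (short-medium; no other rows; variant of ARC, helper58).  `N = a₁ b₂ - a₂ b₁`, `1 ≤ |N| ≤ H²`. `b₂` times the first minus `b₁` times the second relation:
`|N α - n| ≤ (b₁ + b₂) ρ ≤ 2 H ρ`. Multiply by the integer `MH H / N`, at most `MH H` in absolute value. -/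
def GAR_stmt : Prop := ∀ H a₁ b₁ a₂ b₂ : ℕ, a₁ ≤ H → b₁ ≤ H → a₂ ≤ H → b₂ ≤ H → a₁ * b₂ ≠ a₂ * b₁ → ∀ α β ρ : ℝ, 0 ≤ ρ →
  Near ((a₁ : ℝ) * α + b₁ * β) ρ → Near ((a₂ : ℝ) * α + b₂ * β) ρ → Near (MH H * α) (MH H * (2 * H) * ρ)

/-- **GSM** (short-medium; from GEO, GAR; variant of SMF, helper18). -/
def GSM_stmt : Prop := ∀ (W : Finset (ℕ × ℕ)) (H D : ℕ) (ρ : ℝ), (∀ r ∈ W, r.1 ≤ H ∧ r.2 ≤ H) →
  (∀ r ∈ W, ∀ r' ∈ W, r ≠ r' → r.1 * r'.2 ≠ r'.1 * r.2) → 1 ≤ D → 0 < ρ → (#W : ℝ) ≤ (2 * D * ρ) ^ 2 → ∀ α β : ℝ,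
  ¬ Near (MH H * α) (MH H * (2 * H) * ρ) → ∑ r ∈ W, FD D ((r.1 : ℝ) * α + r.2 * β) ≤ 2

/-- **GCS** (medium; from SHF; variant of CSQ, helper72).  For arbitrary functions `g r` supported in `XX R₀ Y` in both variables. -/
def GCS_stmt : Prop := ∀ (W : Finset (ℕ × ℕ)) (H D R₀ R Y : ℕ), (∀ r ∈ W, r.1 ≤ H ∧ r.2 ≤ H) → 1 ≤ D → R₀ + H * D ≤ R →
  ∀ (K : ℕ × ℕ → ℤ → ℝ) (g : ℕ × ℕ → ℤ → ℤ → ℝ), (∀ r v, |K r v| ≤ 1) →
  (∀ r x y, x ∉ XX R₀ Y ∨ y ∉ XX R₀ Y → g r x y = 0) →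
  (∑ r ∈ W, ∑ x ∈ XX R Y, ∑ y ∈ XX R Y, K r ((r.2 : ℤ) * x - (r.1 : ℤ) * y) * g r x y) ^ 2 ≤
    #W * ((Y : ℝ) + 2 * R) ^ 2 * ∑ r ∈ W, ∑ x ∈ XX R Y, ∑ y ∈ XX R Y,
      ((∑ d ∈ range D, g r (x + (r.1 : ℤ) * d) (y + (r.2 : ℤ) * d)) / D) ^ 2

/-- **GUF** (medium; from EEB, PA2, SHF; variant of UFT, helper34).  `I` is a set of pairs of elements of `F` in which each entry determines the other, so
`‖∑_(p ∈ I) ft (φ p.1) α ft (ψ p.2) β‖² ≤ PF φ α PF ψ β`. -/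
def GUF_stmt : Prop := ∀ (F : Finset ℕ) (I : Finset (ℕ × ℕ)) (A B D R₀ R Y Q : ℕ), I ⊆ F ×ˢ F →
  (∀ p ∈ I, ∀ p' ∈ I, (p.1 = p'.1 ∨ p.2 = p'.2) → p = p') → 1 ≤ D → 1 ≤ Q → Y + 2 * R ≤ Q → R₀ + A * D ≤ R → R₀ + B * D ≤ R →
  ∀ φ ψ : ℕ → ℤ → ℝ, Sp R₀ Y φ → Sp R₀ Y ψ →
  (Q : ℝ) ^ 2 * ∑ x ∈ XX R Y, ∑ y ∈ XX R Y,
      ((∑ d ∈ range D, ∑ p ∈ I, φ p.1 (x + (A : ℤ) * d) * ψ p.2 (y + (B : ℤ) * d)) / D) ^ 2 ≤
    ∑ k ∈ range Q, ∑ l ∈ range Q, PF F (XX R Y) φ ((k : ℝ) / Q) * PF F (XX R Y) ψ ((l : ℝ) / Q) *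
      FD D ((A : ℝ) * ((k : ℝ) / Q) + (B : ℝ) * ((l : ℝ) / Q))

/-- **GPH** (short; from PA1; variant of PHS, helper65). -/
def GPH_stmt : Prop := ∀ (F : Finset ℕ) (R Y Q : ℕ), 1 ≤ Q → Y + 2 * R ≤ Q → ∀ φ : ℕ → ℤ → ℝ, (∀ i x, |φ i x| ≤ 1) → Sp 0 Y φ →
  ∑ k ∈ range Q, PF F (XX R Y) φ ((k : ℝ) / Q) ≤ (Q : ℝ) * (#F * Y)

/-- **GUB** (medium; from GEO, GRR, GSM, GCS, GUF, SMO, GPH; variant of UBD, helper41).  `M₁ = MH H`, `w = #(RR F)` (`F = ∅` or `w = 0`: the sum is `0`),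
`φᵘ s x = φ s x - sm M₁ T (φ s) x`, `ρ = 1/(2π T M₁ 2H w)`, `ρ' = M₁ 2H ρ`, so `(2π T ρ')² w ≤ 1`; `D ≥ 1` with `2 D ρ ≥ w`; `R₀ = M₁ T`, `R = 3 M₁ T + H D`, `Y₀ = 2R`,
`Q = Y + 2R + 1`. GCS (with `W = RR F`, `g = gr F φᵘ ψ`), GUF for every `r` (`I` the class of `r`, GRR (3)), GSM (GRR (1), (2)):
`S² ≤ w (Y + 2R)² 8 (#F Y)² ≤ 32 w (#F)² Y⁴`. -/
def GUB_stmt : Prop := ∀ (F : Finset ℕ) (H T : ℕ), (∀ s ∈ F, 1 ≤ s ∧ s ≤ H) → 1 ≤ T → ∃ R Y₀ : ℕ, 3 * (MH H * T) ≤ R ∧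
  ∀ Y : ℕ, Y₀ ≤ Y → ∀ (K : ℕ × ℕ → ℤ → ℝ) (φ ψ : ℕ → ℤ → ℝ), (∀ r v, |K r v| ≤ 1) → (∀ i x, |φ i x| ≤ 1) → (∀ i x, |ψ i x| ≤ 1) →
  Sp 0 Y φ → Sp 0 Y ψ →
  |∑ r ∈ RR F, ∑ x ∈ XX R Y, ∑ y ∈ XX R Y, K r ((r.2 : ℤ) * x - (r.1 : ℤ) * y) *
    gr F (fun i x => φ i x - sm (MH H) T (φ i) x) ψ r x y| ≤ 6 * (√(#(RR F)) * #F) * (Y : ℝ) ^ 2

/-- **GSD** (medium; from SHF, SML, GRR; variant of SMD, helper93).  `M₁ = MH H`, `M = M₁²`, `T' = J M₁ T`, `φˢ s = sm M₁ T' (φ s)`. For `r = (a, b)`, `1 ≤ b ≤ H`, so `b ∣ M₁`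
(`b ≤ H²`), and `M t = b (M₁ (M₁/b) t)`: with `σ = (M₁/b) t ≤ M₁ T` the shift of `v` by `M t` is the shift of `x` by `M₁ σ`; SML: `∑_x ≤ 2 σ Y/T' ≤ 2 Y/J`. Sum over
`y ∈ [0, Y)` and over the at most `(#F)²/2` pairs of `FF F`. -/
def GSD_stmt : Prop := ∀ (F : Finset ℕ) (H T J R Y : ℕ), (∀ s ∈ F, 1 ≤ s ∧ s ≤ H) → 1 ≤ T → 1 ≤ J → 3 * (MH H * (J * MH H * T)) ≤ R →
  ∀ (B : ℕ × ℕ → ℤ → ℝ) (φ ψ : ℕ → ℤ → ℝ), (∀ r v, 0 ≤ B r v ∧ B r v ≤ 1) → (∀ i x, |φ i x| ≤ 1) → (∀ i x, |ψ i x| ≤ 1) →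
  Sp 0 Y φ → Sp 0 Y ψ →
  |∑ r ∈ RR F, ∑ x ∈ XX R Y, ∑ y ∈ XX R Y, (B r ((r.2 : ℤ) * x - (r.1 : ℤ) * y) -
      PG (MH H ^ 2) T B r ((r.2 : ℤ) * x - (r.1 : ℤ) * y)) *
    gr F (fun i x => sm (MH H) (J * MH H * T) (φ i) x) ψ r x y| ≤ (#F : ℝ) ^ 2 * (Y : ℝ) ^ 2 / J

/-- **GCU** (medium; from GUB, GSD; variant of CUT, helper93).  `J ≥ 1/√η`, `T' = J M₁ T`: for the sum over the pairs with `p'.1 < p.1` the bound is
`(1/J + 6 √η) (#F Y)² ≤ 7 √η (#F Y)²`. -/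
def GCU_stmt : Prop := ∀ η : ℝ, 0 < η → ∀ (F : Finset ℕ) (H T : ℕ), (∀ s ∈ F, 1 ≤ s ∧ s ≤ H) → 1 ≤ T →
  (#(RR F) : ℝ) ≤ η * (#F : ℝ) ^ 2 → ∃ Y₀ : ℕ, ∀ Y : ℕ, Y₀ ≤ Y → ∀ B : ℕ × ℕ → ℤ → ℝ,
  (∀ r v, 0 ≤ B r v ∧ B r v ≤ 1) → ∀ φ ψ : ℕ × ℕ → ℝ, (∀ p, |φ p| ≤ 1) → (∀ p, |ψ p| ≤ 1) →
  |∑ p ∈ VF F Y, ∑ p' ∈ VF F Y, (kg B p p' - kg (PG (MH H ^ 2) T B) p p') * φ p * ψ p'| ≤
    14 * √η * ((#F : ℝ) * Y) ^ 2

/-- **GK4** (medium; from PSY, ADV; variant of K4B, helper78).  Forms `f(s, x) = (s, 1 + 6 M₁ x)`, injective; `s ∣ M₁` as `s ≤ H²`. For `p = (s, x)`, `p' = (s', y)`, `s' < s`,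
`r = (a, b) = rp s s'`: `Pair (f p) (f p')` is `TrueCase b a (b (1 + 6 M₁ x) - a (1 + 6 M₁ y))`. -/
def GK4_stmt : Prop := QPc → ∃ C δ : ℝ, 0 < C ∧ 0 < δ ∧ ∀ (F : Finset ℕ) (H Y : ℕ), (∀ s ∈ F, 1 ≤ s ∧ s ≤ H) → F.Nonempty → 1 ≤ Y →
  K4 (VF F Y) (kg (BG H)) ≤ C * ((#F : ℝ) * Y) ^ 4 * ((#F : ℝ) * Y) ^ (-δ)

/-- **GOP** (medium; from GCU, CNT, MM, GK4, GRR; variant of OMP, helper41).  `n = #F Y`. `#F ≤ #(QF F)` and the hypothesis give `1/#F ≤ η` (`F` not empty; for `F = ∅`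
the claim is `0 ≤ 0`), `#(RR F) ≤ #(QF F)`. The pairs with equal slopes are `n²/#F ≤ η n²`. `η` with `η + (3/2) ε⁻⁶ 84 √η ≤ ε`, `Y₀` with `(3/2) ε⁻⁶ C n^(-δ) ≤ ε`. -/
def GOP_stmt : Prop := QPc → ∀ ε : ℝ, 0 < ε → ∃ η : ℝ, 0 < η ∧ ∀ (F : Finset ℕ) (H : ℕ), (∀ s ∈ F, 1 ≤ s ∧ s ≤ H) →
  (#(QF F) : ℝ) ≤ η * (#F : ℝ) ^ 2 → ∀ T : ℕ, 1 ≤ T → ∃ Y₀ : ℕ, ∀ Y : ℕ, Y₀ ≤ Y → (1 / 6 - ε) * ((#F : ℝ) * Y) ^ 2 ≤
    #{t ∈ VF F Y ×ˢ VF F Y | t.2.1 < t.1.1 ∧ kg (PG (MH H ^ 2) T (BG H)) t.1 t.2 < ε}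

/-- **GPG** (medium; from GOP, GRR; the proof is that of OMF and OMT).  `ε ≤ 1/10` without loss; GOP for `ε/4`, `H = max F`, `q = 6 M₁³`. Fix `F`. For every `T` take `Y` (the maximum
of `Y₀` and `1`) and let `S_T` be the set of the `(s, s') ∈ FF F` which occur in GOP with some `x, y < Y`; `#S_T Y² ≥ (1/6 - ε/4) (#F Y)²`. For `(s, s') ∈ S_T`,
`(a, b) = rp s s'`, at least `(1 - ε/4) T` of the numbers `c + q t`, `t < T`, `c = b (1 + 6 M₁ x) - a (1 + 6 M₁ y)`, are true for `(b, a)`. Some set `S` is `S_T`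
for infinitely many `T`; for each `(s, s') ∈ S` some class `c` mod `q` occurs for infinitely many of these `T`; a part of length `T` of a long progression
(`T₁ ≥ 4T/ε`) has at least `(1 - ε) T` true numbers (see OMC, helper59). So `GoodR ε b a` for at least `(1/6 - ε/4) (#F)²` pairs of `FF F`. -/
def GPG_stmt : Prop := QPc → ∀ ε : ℝ, 0 < ε → ∃ η : ℝ, 0 < η ∧ ∀ F : Finset ℕ, (∀ s ∈ F, 0 < s) → (#(QF F) : ℝ) ≤ η * (#F : ℝ) ^ 2 →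
  ∃ S : Finset (ℕ × ℕ), S ⊆ FF F ∧ (∀ p ∈ S, GQ ε p.2 p.1) ∧ (1 / 6 - ε / 2) * (#F : ℝ) ^ 2 ≤ #S

/-- **GSY** (short; no other rows).  `TrueCase a b c ↔ TrueCase b a (-c)` (see PSY_symm, helper72/AT/PSY.lean); if `T` consecutive terms of `r + q ℤ` contain `(1 - ε) T` true `c` for
`(a, b)`, then `T` consecutive terms of `r' + q ℤ`, `r' = (-r) mod q`, contain their negatives, true for `(b, a)`. -/
def GSY_stmt : Prop := ∀ (ε : ℝ) (a b : ℕ), GoodR ε a b → GoodR ε b a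

/-- **GMA** (short; from GPG, GSY).  `S` and its mirror image `{(s', s)}` are disjoint, both in `{p | GQ ε p.1 p.2}` (`Nat.gcd_comm`). -/
def GMA_stmt : Prop := QPc → OMG

/-- **GOA** (medium; from OMG).  `F` is the image of `A × [0, L)` under `(s, i) ↦ s a^i b^(L-i)`, injective: a prime `l` dividing `a` (or `b`; `a ≠ b` coprime, so `ab > 1`) does not
divide `s`, so its exponent determines `i`, then `s`. `#F = L #A`, `#(QF F) ≤ (#A)² (2L - 1) ≤ (2/L) (#F)²` (the quotient is `(s/s') (a/b)^(i-j)`); `L ≥ 2/η`. If the quotient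
of `(s, i)`, `(s', j)` is good then it is the quotient of `a^m s` and `b^m s'` with `m = i - j` if `i ≥ j`, and of `b^m s` and `a^m s'` with `m = j - i` otherwise (`GQ` depends only on the
quotient). So `(1/3 - ε) L² (#A)² ≤ L² #{...}`. (`A = ∅`: trivial.) -/
def GOA_stmt : Prop := OMG → OMA

/-- **GPP** (medium; from OMA).  `ε ≤ 1/100` without loss. `a = 2`, `b = 1`, `A` = the odd numbers `≤ N' = ⌊N/2^L⌋`, `#A ≥ N'/2`, so at least `(1/3 - 1/100) N'²/4 ≥ N'²/13` pairs `(s, s') ∈ A²` have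
an `m < L` with `GQ ε (2^m s) s'` or `GQ ε s (2^m s')`. At most `∑_(g > 100) (N'/g)² ≤ N'²/100` pairs have `gcd(s, s') > 100`. For the other pairs the reduced pair
`(2^m s/g, s'/g)` or `(s/g, 2^m s'/g)`, `g = gcd(s, s')` (odd), is a coprime good pair in `[1, N]²`; it determines (up to the order) `m`, `s/g`, `s'/g`, so it comes from at most `200`
pairs `(s, s')`. So there are at least `(N'²/13 - N'²/100)/200` good coprime pairs in `[1, N]²`, and `N' ≥ N/2^(L+1)` for `N ≥ 2^L`. -/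
def GPP_stmt : Prop := OMA → OMPP

end Pool.Agent.OM
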