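import Pool.Agent.helper10.OM.SpecG

/-!
# Project OM, part H (MP_bf63dc_nt, rows `om:H*`): consequences of `OMG`

RULES as in Pool.Agent.helper10.OM.SpecG: file `Pool/Agent/<seat>/OM/XX.lean`, `import Pool.Agent.helper10.OM.SpecH`, `namespace Pool.Agent.OM`,
`theorem XX (hYY : YY_stmt) ... : XX_stmt`, auxiliary lemmas prefixed `XX_`, no `convert`, no `congr!`, no `native_decide`, no straight
double quotes; `open Classical in` only before definitions.
-/

set_option autoImplicit false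

namespace Pool.Agent.OM

open Finset Real Pool.Agent.AT Pool.Agent.helper85.FC

open Classical in
/-- COROLLARY: a third of all pairs of divisors of a squarefree number with many prime factors have a good quotient -/
def OMDIV : Prop := ∀ ε : ℝ, 0 < ε → ∃ k : ℕ, ∀ n : ℕ, Squarefree n → k ≤ #n.primeFactors →
  (1 / 3 - ε) * (#n.divisors : ℝ) ^ 2 ≤ #{p ∈ n.divisors ×ˢ n.divisors | GQ ε p.1 p.2}

/-- the positive rational `x` is good -/
def GoodX (ε : ℝ) (x : ℚ) : Prop := ∃ a b : ℕ, 1 ≤ a ∧ 1 ≤ b ∧ Nat.Coprime a b ∧ x = (a : ℚ) / b ∧ GoodR ε a b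

/-- COROLLARY: among any four positive rationals two have a quotient which is the product of two good numbers -/
def OMD4 : Prop := ∀ ε : ℝ, 0 < ε → ε < 1 / 12 → ∀ x : Fin 4 → ℚ, (∀ i, 0 < x i) →
  ∃ i j : Fin 4, i ≠ j ∧ ∃ g g' : ℚ, GoodX ε g ∧ GoodX ε g' ∧ x i / x j = g * g'

/-- COROLLARY: the good numbers generate a subgroup of index at most 3 of the positive rationals: if `H` contains all of them and is closed under
multiplication and division then among any four positive rationals two have their quotient in `H` -/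
def OMIND : Prop := ∀ ε : ℝ, 0 < ε → ∀ H : Set ℚ, (∀ x, GoodX ε x → x ∈ H) → (∀ x ∈ H, ∀ y ∈ H, x * y ∈ H) → (∀ x ∈ H, x⁻¹ ∈ H) →
  ∀ x : Fin 4 → ℚ, (∀ i, 0 < x i) → ∃ i j : Fin 4, i ≠ j ∧ x i / x j ∈ H

/-- **HGX** (short; from GSY).  (1) For `s, s' ≥ 1`: `GQ ε s s' ↔ GoodX ε (s/s')` (lowest terms are unique; `Nat.gcd` division, `Rat` normal form or
cross multiplication of coprime pairs). (2) `GoodX ε x → GoodX ε x⁻¹` (GSY). (3) monotone in `ε`. -/
def HGX_stmt : Prop := (∀ (ε : ℝ) (s s' : ℕ), 1 ≤ s → 1 ≤ s' → (GQ ε s s' ↔ GoodX ε ((s : ℚ) / s'))) ∧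
  (∀ (ε : ℝ) (x : ℚ), GoodX ε x → GoodX ε x⁻¹) ∧ ∀ (ε ε' : ℝ) (x : ℚ), ε ≤ ε' → GoodX ε x → GoodX ε' x

/-- **HDV** (short-medium; from OMG).  `F = n.divisors`, `w = #n.primeFactors`: `#F = 2^w` (`Nat.card_divisors` or `Squarefree.card_divisors`...), and the
quotient `d/d'` is determined by the function which sends a prime `p ∣ n` to `v_p(d) - v_p(d') ∈ {-1, 0, 1}`, so `#(QF F) ≤ 3^w ≤ η 4^w` for `w ≥ k`. -/
def HDV_stmt : Prop := OMG → OMDIV

/-- **HD4** (medium; from OMG, HGX).  Let `P ≥ 1` be a finite nonempty set of primes which contains all primes dividing a numerator or denominator of an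
`x i` (for example all primes `≤ K`), `E` the maximum of the exponents in absolute value, `F_N = {∏_(p ∈ P) p^(e p) : 0 ≤ e p < N}`, `d = #P`: `#F_N = N^d`,
`#(QF F_N) ≤ (2N)^d ≤ 2^d #F_N ≤ η (#F_N)²` for large `N`. OMG for `ε`: at least `(1/3 - ε) N^(2d)` pairs `(s, s') ∈ F_N²` have `GoodX ε (s/s')`. For every `i` let
`A_i = {(s, s') ∈ F_N² : GoodX ε (s/(x_i s'))}`: the map `(s, s') ↦ (s x_i, s')` sends the good pairs with `s x_i ∈ F_N` injectively to `A_i`, and at most `d E N^(d-1)`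
elements `s` have `s x_i ∉ F_N`. So `#A_i ≥ (1/3 - ε - d E/N) N^(2d) > N^(2d)/4` for large `N`, and two of the four sets `A_i, A_j` have a common element `(s, s')`: `s/s' = x_i g =
x_j g'` with `g, g'` good, `x_i/x_j = g' g⁻¹`, and `g⁻¹` is good (HGX). -/
def HD4_stmt : Prop := OMG → OMD4

/-- **HIN** (short; from OMD4, HGX).  For `ε ≥ 1/12` use `ε' = 1/13` (`GoodX ε' x → GoodX ε x`). -/
def HIN_stmt : Prop := OMD4 → OMIND

end Pool.Agent.OM
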